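import Pool.Agent.Q80.AC.Stm

open MeasureTheory Topology Filter
open scoped ENNReal NNReal ComplexConjugate

noncomputable section

namespace Pool.Agent.Q62.AC.AMN

open Pool.Agent.Q80.AC

variable {H : Type} [Group H] [TopologicalSpace H] [IsTopologicalGroup H] [LocallyCompactSpace H]
  [SecondCountableTopology H] [T2Space H] [MeasurableSpace H] [BorelSpace H]

theorem normsq (m : Measure H) (ξ : Lp ℂ 2 m) : ‖ξ‖ ^ 2 = ∫ x, ‖ξ x‖ ^ 2 ∂m := by
  have h : (inner ℂ ξ ξ : ℂ) = ∫ x, inner ℂ (ξ x) (ξ x) ∂m := L2.inner_def ξ ξ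
  rw [inner_self_eq_norm_sq_to_K] at h
  have h2 : ∫ x, inner ℂ (ξ x) (ξ x) ∂m = ((∫ x, ‖ξ x‖ ^ 2 ∂m : ℝ) : ℂ) := by
    rw [← integral_complex_ofReal]
    congr 1
    funext x
    rw [inner_self_eq_norm_sq_to_K]
    push_cast
    rfl
  rw [h2] at h
  have h3 : ((‖ξ‖ ^ 2 : ℝ) : ℂ) = ((∫ x, ‖ξ x‖ ^ 2 ∂m : ℝ) : ℂ) := by
    rw [← h]
    push_cast
    rfl
  exact Complex.ofReal_injective h3

theorem normsq_toLp (m : Measure H) {g : H → ℂ} (hg : MemLp g 2 m) :
    ‖hg.toLp g‖ ^ 2 = ∫ x, ‖g x‖ ^ 2 ∂m := by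
  rw [normsq]
  refine integral_congr_ae ?_
  filter_upwards [hg.coeFn_toLp] with x hx
  rw [hx]

theorem lam_eq (m : Measure H) [m.IsHaarMeasure] (s : H) (ξ : Lp ℂ 2 m) :
    lam m s ξ = Lp.compMeasurePreserving (fun x => s⁻¹ * x) (measurePreserving_mul_left m s⁻¹) ξ :=
  rfl

theorem sqrt_diff {a b : ℝ} (ha : 0 ≤ a) (hb : 0 ≤ b) : (√a - √b) ^ 2 ≤ |a - b| := by
  have h1 : a - b = (√a - √b) * (√a + √b) := by
    have e1 := Real.mul_self_sqrt ha
    have e2 := Real.mul_self_sqrt hb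
    nlinarith
  have hp := Real.sqrt_nonneg a
  have hq := Real.sqrt_nonneg b
  have h2 : |√a - √b| ≤ √a + √b := by rw [abs_le]; constructor <;> linarith
  calc (√a - √b) ^ 2 = |√a - √b| * |√a - √b| := by rw [abs_mul_abs_self]; ring
    _ ≤ |√a - √b| * (√a + √b) := by gcongr
    _ = |√a - √b| * |√a + √b| := by rw [abs_of_nonneg (add_nonneg hp hq)]
    _ = |a - b| := by rw [← abs_mul, ← h1]

theorem t_AMN (hLTV : S_LTV) : S_AMN := by
  intro H _ _ _ _ _ _ _ _ m _ μ _ hR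
  apply le_antisymm
  · have := (hLTV H m μ μ 0 le_rfl).1
    simpa using this
  · refine le_of_forall_pos_le_add fun ε hε => ?_
    obtain ⟨K, -, hK, hμK⟩ := MeasurableSet.univ.exists_isCompact_sdiff_lt (μ := μ)
      (measure_ne_top μ _) (ε := ENNReal.ofReal (ε / 3)) (by simpa using by positivity)
    obtain ⟨f, hf, hf0, hf1, hfK⟩ := hR K hK ((ε / 3) ^ 2) (by positivity)
    have hg : MemLp (fun x => ((√(f x) : ℝ) : ℂ)) 2 m := by
      rw [memLp_two_iff_integrable_sq_norm]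
      · refine hf.congr (Eventually.of_forall fun x => ?_)
        simp only [Complex.norm_real, Real.norm_eq_abs, sq_abs]
        exact (Real.sq_sqrt (hf0 x)).symm
      · exact (Complex.continuous_ofReal.comp Real.continuous_sqrt).comp_aestronglyMeasurable hf.1
    obtain ⟨ξ, hξ⟩ : ∃ ξ : Lp ℂ 2 m, ξ = hg.toLp _ := ⟨_, rfl⟩
    have hξ1 : ‖ξ‖ = 1 := by
      have h1 : ‖ξ‖ ^ 2 = 1 := by
        rw [hξ, normsq_toLp m hg, ← hf1]
        congr 1
        funext x
        simp only [Complex.norm_real, Real.norm_eq_abs, sq_abs]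
        exact Real.sq_sqrt (hf0 x)
      nlinarith [norm_nonneg ξ]
    have hKs : ∀ s ∈ K, ‖lam m s ξ - ξ‖ ≤ ε / 3 := by
      intro s hs
      have hmp := measurePreserving_mul_left m s⁻¹
      have hg2 := hg.comp_measurePreserving hmp
      have h1 : lam m s ξ - ξ = (hg2.sub hg).toLp _ := by
        rw [lam_eq, hξ, Lp.toLp_compMeasurePreserving, ← MemLp.toLp_sub]
      have h2 : ‖lam m s ξ - ξ‖ ^ 2 ≤ (ε / 3) ^ 2 := by
        rw [h1, normsq_toLp]
        refine le_trans (integral_mono_of_nonneg (Eventually.of_forall fun x => by positivity)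
          ((hf.comp_mul_left s⁻¹).sub hf).abs (Eventually.of_forall fun x => ?_)) (hfK s hs)
        simp only [Pi.sub_apply, Function.comp_apply]
        rw [← Complex.ofReal_sub, Complex.norm_real, Real.norm_eq_abs, sq_abs]
        exact sqrt_diff (hf0 _) (hf0 _)
      exact abs_le_of_sq_le_sq' h2 (by positivity) |>.2
    have hall : ∀ s, ‖lam m s ξ - ξ‖ ≤ ε / 3 + Kᶜ.indicator (fun _ => (2 : ℝ)) s := by
      intro s
      by_cases hs : s ∈ K
      · have : s ∉ Kᶜ := fun h => h hs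
        rw [Set.indicator_of_notMem this, add_zero]
        exact hKs s hs
      · rw [Set.indicator_of_mem (show s ∈ Kᶜ from hs)]
        have h1 : ‖lam m s ξ - ξ‖ ≤ ‖lam m s ξ‖ + ‖ξ‖ := norm_sub_le _ _
        rw [(lam m s).norm_map, hξ1] at h1
        linarith
    have hint := lam_int m μ ξ
    have hd : lamM m μ ξ - ξ = ∫ s, (lam m s ξ - ξ) ∂μ := by
      rw [integral_sub hint (integrable_const _), lamM_apply]
      simp
    have hKm : MeasurableSet Kᶜ := hK.measurableSet.compl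
    have hμK' : μ.real Kᶜ ≤ ε / 3 := by
      rw [Measure.real]
      refine ENNReal.toReal_le_of_le_ofReal (by positivity) ?_
      rw [Set.compl_eq_univ_sdiff]
      exact hμK.le
    have hnorm : ‖lamM m μ ξ - ξ‖ ≤ ε := by
      rw [hd]
      calc ‖∫ s, (lam m s ξ - ξ) ∂μ‖ ≤ ∫ s, ‖lam m s ξ - ξ‖ ∂μ := norm_integral_le_integral_norm _
        _ ≤ ∫ s, (ε / 3 + Kᶜ.indicator (fun _ => (2 : ℝ)) s) ∂μ :=
            integral_mono (hint.sub (integrable_const _)).norm
              ((integrable_const _).add ((integrable_const _).indicator hKm)) hall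
        _ = ε / 3 + μ.real Kᶜ * 2 := by
            rw [integral_add (integrable_const _) ((integrable_const _).indicator hKm),
              integral_indicator_const _ hKm]
            simp
        _ ≤ ε := by linarith
    calc (1 : ℝ) = ‖ξ‖ := hξ1.symm
      _ = ‖lamM m μ ξ - (lamM m μ ξ - ξ)‖ := by rw [sub_sub_cancel]
      _ ≤ ‖lamM m μ ξ‖ + ‖lamM m μ ξ - ξ‖ := norm_sub_le _ _
      _ ≤ ‖lamM m μ‖ * ‖ξ‖ + ε := add_le_add ((lamM m μ).le_opNorm ξ) hnorm
      _ = ‖lamM m μ‖ + ε := by rw [hξ1, mul_one]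

end Pool.Agent.Q62.AC.AMN
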