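import Pool.Agent.Q80.AC.Stm

open MeasureTheory Topology Filter
open scoped ENNReal NNReal ComplexConjugate

noncomputable section

namespace Pool.Agent.Q62.AC.LSER

open Pool.Agent.Q80.AC

variable {H : Type} [Group H] [TopologicalSpace H] [IsTopologicalGroup H] [LocallyCompactSpace H]
  [SecondCountableTopology H] [T2Space H] [MeasurableSpace H] [BorelSpace H]

theorem lam_eq (m : Measure H) [m.IsHaarMeasure] (s : H) (ξ : Lp ℂ 2 m) :
    lam m s ξ = Lp.compMeasurePreserving (fun x => s⁻¹ * x) (measurePreserving_mul_left m s⁻¹) ξ :=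
  rfl

theorem lam_coe (m : Measure H) [m.IsHaarMeasure] (s : H) (ξ : Lp ℂ 2 m) :
    (lam m s ξ : H → ℂ) =ᵐ[m] fun x => ξ (s⁻¹ * x) := by
  rw [lam_eq]
  exact Lp.coeFn_compMeasurePreserving ξ (measurePreserving_mul_left m s⁻¹)

theorem lam_one (m : Measure H) [m.IsHaarMeasure] (ξ : Lp ℂ 2 m) : lam m 1 ξ = ξ := by
  apply Lp.ext
  filter_upwards [lam_coe m 1 ξ] with x hx
  rw [hx, inv_one, one_mul]

theorem lamM_congr (m : Measure H) [m.IsHaarMeasure] {μ ν : Measure H} [IsFiniteMeasure μ]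
    [IsFiniteMeasure ν] (h : μ = ν) : lamM m μ = lamM m ν := by
  subst h; rfl

theorem lamM_one (m : Measure H) [m.IsHaarMeasure] : lamM m (Measure.dirac (1 : H)) = 1 := by
  ext1 ξ
  rw [lamM_apply, integral_dirac, lam_one]
  rfl

theorem lamM_pow (hP : S_POW) (hL : S_LMUL) (m : Measure H) [m.IsHaarMeasure] (σ : Measure H)
    [IsFiniteMeasure σ] (k : ℕ) : ∀ [IsFiniteMeasure (pw σ k)], lamM m (pw σ k) = (lamM m σ) ^ k := by
  induction k with
  | zero =>
    intro _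
    rw [pow_zero, ← lamM_one m]
    exact lamM_congr m rfl
  | succ k ih =>
    intro _
    have := (hP H σ).1 k
    have : IsFiniteMeasure (σ ∗ₘ pw σ k) := (hP H σ).1 (k + 1)
    rw [pow_succ', ← ih]
    exact (hL H m σ (pw σ k) : _)

/-- the weights -/
def wt (a t : ℝ) (k : ℕ) : ℝ := Real.exp (-(a * t)) * t ^ k / k.factorial

theorem wt_nonneg (a : ℝ) {t : ℝ} (ht : 0 ≤ t) (k : ℕ) : 0 ≤ wt a t k := by
  unfold wt; positivity

theorem summable_wt {A : Type} [NormedRing A] [NormedAlgebra ℂ A] [CompleteSpace A] (a t : ℝ)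
    (S : A) : Summable fun k : ℕ => ((wt a t k : ℝ) : ℂ) • S ^ k := by
  have h := (NormedSpace.expSeries_summable' (𝕂 := ℂ) ((t : ℂ) • S)).const_smul
    ((Real.exp (-(a * t)) : ℝ) : ℂ)
  have h2 : (fun k : ℕ => ((wt a t k : ℝ) : ℂ) • S ^ k) =
      fun k : ℕ => ((Real.exp (-(a * t)) : ℝ) : ℂ) • ((k.factorial⁻¹ : ℂ) • ((t : ℂ) • S) ^ k) := by
    funext k
    rw [smul_pow, smul_smul, smul_smul]
    congr 1
    unfold wt
    push_cast
    ring
  rw [h2]
  exact h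

theorem ser_apply (hP : S_POW) (hL : S_LMUL) (m : Measure H) [m.IsHaarMeasure] (σ : Measure H)
    [IsFiniteMeasure σ] (a : ℝ) {t : ℝ} (ht : 0 ≤ t) [IsFiniteMeasure (ser σ a t)] (ξ : Lp ℂ 2 m) :
    HasSum (fun k : ℕ => (((wt a t k : ℝ) : ℂ) • (lamM m σ) ^ k) ξ) (lamM m (ser σ a t) ξ) := by
  have h2 : HasSum (fun k : ℕ => ∫ s, lam m s ξ ∂(ENNReal.ofReal (wt a t k) • pw σ k))
      (lamM m (ser σ a t) ξ) := by
    rw [lamM_apply]
    exact hasSum_integral_measure (lam_int m (ser σ a t) ξ)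
  have h3 : ∀ k, (((wt a t k : ℝ) : ℂ) • (lamM m σ) ^ k) ξ =
      ∫ s, lam m s ξ ∂(ENNReal.ofReal (wt a t k) • pw σ k) := by
    intro k
    have := (hP H σ).1 k
    rw [integral_smul_measure, ENNReal.toReal_ofReal (wt_nonneg a ht k), ← lamM_pow hP hL m σ k,
      ContinuousLinearMap.smul_apply, lamM_apply]
    exact Complex.coe_smul _ _
  rw [funext h3]
  exact h2

theorem apply_hasSum {V : Type} [NormedAddCommGroup V] [NormedSpace ℂ V] {f : ℕ → V →L[ℂ] V}
    {T : V →L[ℂ] V} (h : HasSum f T) (ξ : V) : HasSum (fun k => f k ξ) (T ξ) :=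
  (ContinuousLinearMap.apply ℂ V ξ).hasSum h

theorem ext_of_hasSum {V : Type} [NormedAddCommGroup V] [NormedSpace ℂ V] {f : ℕ → V →L[ℂ] V}
    {T : V →L[ℂ] V} (h : Summable f) (h2 : ∀ ξ, HasSum (fun k => f k ξ) (T ξ)) : HasSum f T := by
  have h3 : ∑' k, f k = T := by
    ext1 ξ
    exact (apply_hasSum h.hasSum ξ).unique (h2 ξ)
  rw [← h3]
  exact h.hasSum

theorem t_LSER (hP : S_POW) (hL : S_LMUL) : S_LSER := by
  intro H _ _ _ _ _ _ _ _ m _ σ _ a t ht _
  exact ext_of_hasSum (summable_wt a t (lamM m σ)) fun ξ => ser_apply hP hL m σ a ht ξ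

end Pool.Agent.Q62.AC.LSER
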